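import Pool.Agent.W608.PR.Final
import Pool.Agent.TH3.IR.Proj

set_option autoImplicit false

/-!
# An explicit threshold for the Hilbert functions of general fat points, in every dimension

Let `n ≥ 2`, `m ≥ 1` and `D = (n m) ^ (n (n + 1) / 2)`. The Hilbert function of `r` general points of
multiplicity `m` in `ℙⁿ` has the value `min (binom (n + d) n) (r * binom (n + m - 1) n)`

* for every number `r` of points, in all degrees `d ≥ D`;
* in EVERY degree `d`, for every number `r` of points with `r * binom (n + m - 1) n ≥ binom (D + n) n`,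
  in particular for all `r ≥ binom (D + n) n`.

So for every `n` and `m` (for instance `m = 3`) the function `H_{n,r,m}` is known for all but finitely
many pairs `(r, d)`, which lie in an explicit box.
-/

namespace Pool.Agent.Q144.Old.EffectiveThreshold

open MvPolynomial
open scoped LinearAlgebra.Projectivization
open Pool.Agent.H350R3.MG Pool.Agent.TH3.IR

/-- The `m`-th symbolic power of the ideal of the points `P₁, …, P_r`. -/
noncomputable def symbolicPower {n r : ℕ} (m : ℕ) (P : Fin r → ℙ ℂ (Fin (n + 1) → ℂ)) :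
    Ideal (MvPolynomial (Fin (n + 1)) ℂ) :=
  ⨅ i, primeIdeal (P i) ^ m

/-- The Hilbert function `dim R_d - dim J_d` of `R / J`. -/
noncomputable def hilbert {n : ℕ} (J : Ideal (MvPolynomial (Fin (n + 1)) ℂ)) (d : ℕ) : ℤ :=
  (Module.finrank ℂ (homogeneousSubmodule (Fin (n + 1)) ℂ d) : ℤ) -
    Module.finrank ℂ (homogeneousSubmodule (Fin (n + 1)) ℂ d ⊓ Submodule.restrictScalars ℂ J :
      Submodule ℂ (MvPolynomial (Fin (n + 1)) ℂ))

/-- The expected value `min (binom (n + d) n) (r * binom (n + m - 1) n)`. -/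
def expected (n r m d : ℕ) : ℤ := ((min ((n + d).choose n) (r * (n + m - 1).choose n) : ℕ) : ℤ)

/-- `h` is the value `H_{n,r,m}(d)` of the Hilbert function of `R / I^(m)` for `r` general points:
the value is `h` for all the `r`-tuples of points in a nonempty Zariski open set. -/
def IsGeneralHilbertValue (n r m d : ℕ) (h : ℤ) : Prop :=
  Generally (fun P : Fin r → ℙ ℂ (Fin (n + 1) → ℂ) => hilbert (symbolicPower m P) d = h)

/-- the threshold `(n m) ^ (n (n + 1) / 2)` -/
def D (n m : ℕ) : ℕ := (n * m) ^ (n * (n + 1) / 2)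

theorem forms_eq {E r m d : ℕ} (P : Fin r → Fin (E + 1) → ℂ)
    (hv : ∀ i, (Fin.cons 1 (P i) : Fin (E + 1 + 1) → ℂ) ≠ 0) :
    (homogeneousSubmodule (Fin (E + 1 + 1)) ℂ d ⊓ Submodule.restrictScalars ℂ
      (symbolicPower m fun i => Projectivization.mk ℂ (Fin.cons 1 (P i) : Fin (E + 1 + 1) → ℂ) (hv i)) :
      Submodule ℂ (MvPolynomial (Fin (E + 1 + 1)) ℂ)) =
    Pool.Agent.H932R5.Vd (E := E) d (fun _ => m) P := by
  unfold Pool.Agent.H932R5.Vd symbolicPower
  simp only [primeIdeal_cons]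
  rfl

theorem finrank_forms {r : ℕ} (hr : 1 ≤ r) (d : ℕ) :
    Module.finrank ℂ (homogeneousSubmodule (Fin (r + 1)) ℂ d) = (d + r).choose r := by
  obtain ⟨E, rfl⟩ : ∃ E, r = E + 1 := ⟨r - 1, by omega⟩
  have h := (Pool.Agent.H932R5.SurjAt.of_zero (w := fun _ : Fin 0 => 0) (fun i => rfl)
    (fun i : Fin 0 => (0 : Fin (E + 1) → ℂ)) d).finrank
  rw [Finset.univ_eq_empty, Finset.sum_empty, zero_add] at h
  have h1 : Pool.Agent.H932R5.Vd d (fun _ : Fin 0 => 0) (fun i : Fin 0 => (0 : Fin (E + 1) → ℂ)) =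
      homogeneousSubmodule (Fin (E + 1 + 1)) ℂ d := by
    unfold Pool.Agent.H932R5.Vd
    rw [iInf_of_empty, Submodule.restrictScalars_top, inf_top_eq]
  rw [h1] at h
  exact h

theorem general (E m : ℕ) (hE : 1 ≤ E) (hm : 1 ≤ m) (r : ℕ) :
    Generally (fun P : Fin r → ℙ ℂ (Fin (E + 1 + 1) → ℂ) => ∀ d : ℕ,
      (D (E + 1) m ≤ d ∨ (D (E + 1) m + (E + 1)).choose (E + 1) ≤ r * (E + 1 + m - 1).choose (E + 1)) →
      hilbert (symbolicPower m P) d = expected (E + 1) r m d) := by
  have hG := Pool.Agent.W608.PR.G_all ℂ hm E hE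
  have hDd : Pool.Agent.W608.PR.Dd (E + 1) m = D (E + 1) m := rfl
  rw [hDd] at hG
  obtain ⟨F, hF, hF'⟩ := Pool.Agent.W608.PR.all_degrees hm hG (n := r) (fun _ => m) fun _ => le_rfl
  refine generally_of_affine F hF fun P hv hP d hd => ?_
  have e1 : E + 1 + m - 1 = m + E := by omega
  have e2 : E + 1 + d = d + E + 1 := by omega
  rw [e1, ← add_assoc] at hd
  have hsum : ∑ _i : Fin r, (m + E).choose (E + 1) = r * (m + E).choose (E + 1) := by
    rw [Finset.sum_const, Finset.card_univ, Fintype.card_fin, smul_eq_mul]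
  have hd' : D (E + 1) m ≤ d ∨ (D (E + 1) m + E + 1).choose (E + 1) ≤
      ∑ _i : Fin r, (m + E).choose (E + 1) := by rwa [hsum]
  obtain ⟨h1, h2⟩ := hF' P hP d hd'
  rw [hsum] at h1 h2
  unfold hilbert expected
  rw [forms_eq P hv, finrank_forms (by omega) d, e1, e2]
  have e3 : (d + (E + 1)).choose (E + 1) = (d + E + 1).choose (E + 1) := rfl
  rw [e3]
  rcases Nat.le_total ((d + E + 1).choose (E + 1)) (r * (m + E).choose (E + 1)) with h | h
  · rw [(h1 h).finrank, min_eq_left h]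
    simp
  · have h3 := (h2 h).finrank
    rw [hsum] at h3
    rw [min_eq_right h, ← h3]
    push_cast
    ring

/-- Let `n ≥ 2`, `m ≥ 1` and `D = (n m) ^ (n (n + 1) / 2)`. -/
theorem result (n m : ℕ) (hn : 2 ≤ n) (hm : 1 ≤ m) :
    -- one open set of `r`-tuples for all these degrees
    (∀ r : ℕ, Generally (fun P : Fin r → ℙ ℂ (Fin (n + 1) → ℂ) => ∀ d : ℕ,
      (D n m ≤ d ∨ (D n m + n).choose n ≤ r * (n + m - 1).choose n) →
      hilbert (symbolicPower m P) d = expected n r m d)) ∧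
    (∀ r d : ℕ, D n m ≤ d → IsGeneralHilbertValue n r m d (expected n r m d)) ∧
    (∀ r d : ℕ, (D n m + n).choose n ≤ r → IsGeneralHilbertValue n r m d (expected n r m d)) ∧
    {x : ℕ × ℕ | ¬ IsGeneralHilbertValue n x.1 m x.2 (expected n x.1 m x.2)}.Finite := by
  obtain ⟨E, rfl⟩ : ∃ E, n = E + 1 := ⟨n - 1, by omega⟩
  have main := fun r => general E m (by omega) hm r
  have h1 : ∀ r d : ℕ, D (E + 1) m ≤ d →
      IsGeneralHilbertValue (E + 1) r m d (expected (E + 1) r m d) := by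
    intro r d hd
    obtain ⟨U, hU, hU', h⟩ := main r
    exact ⟨U, hU, hU', fun P hP => h P hP d (Or.inl hd)⟩
  have h2 : ∀ r d : ℕ, (D (E + 1) m + (E + 1)).choose (E + 1) ≤ r →
      IsGeneralHilbertValue (E + 1) r m d (expected (E + 1) r m d) := by
    intro r d hr
    obtain ⟨U, hU, hU', h⟩ := main r
    refine ⟨U, hU, hU', fun P hP => h P hP d (Or.inr (hr.trans ?_))⟩
    exact Nat.le_mul_of_pos_right r (Nat.choose_pos (by omega))
  refine ⟨main, h1, h2, ?_⟩
  refine (((Set.finite_Iio ((D (E + 1) m + (E + 1)).choose (E + 1))).prod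
    (Set.finite_Iio (D (E + 1) m)))).subset ?_
  rintro ⟨r, d⟩ h
  refine ⟨?_, ?_⟩
  · by_contra hc
    exact h (h2 r d (not_lt.1 hc))
  · by_contra hc
    exact h (h1 r d (not_lt.1 hc))

end Pool.Agent.Q144.Old.EffectiveThreshold
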